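import Pool.Agent.Helper15.UL.GoalsC

/-!
# Packet HFA: all fusion principles
-/

set_option autoImplicit false

noncomputable section

namespace UL.PkHFA

variable {I : Type} [LinearOrder I] [WellFoundedLT I]

omit [WellFoundedLT I] in
theorem base (q : I → ℕ) (hq : ∀ ξ, q ξ = 0) : FP Set.univ q := by
  intro Q hd _
  obtain ⟨g, hg, hQ⟩ := hd id (MD.id' _)
  exact ⟨g, hg, hg.pure fun ξ _ => hq ξ, Cov.of hQ⟩

omit [WellFoundedLT I] in
theorem largest (q : I → ℕ) (hf : Fin0 q) (h : ¬ ∀ ξ, q ξ = 0) :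
    ∃ ε, q ε ≠ 0 ∧ ∀ ξ, ¬ ξ ≤ ε → q ξ = 0 := by
  push Not at h
  have hne : hf.toFinset.Nonempty := by
    obtain ⟨ξ, hξ⟩ := h
    exact ⟨ξ, (Set.Finite.mem_toFinset _).2 hξ⟩
  refine ⟨hf.toFinset.max' hne, ?_, fun ξ hξ => ?_⟩
  · exact (Set.Finite.mem_toFinset _).1 (Finset.max'_mem _ hne)
  · by_contra h1
    exact hξ (Finset.le_max' _ _ ((Set.Finite.mem_toFinset _).2 h1))

theorem all (fpst : UL.G_FPST) (q : I → ℕ) (hf : Fin0 q) : FP Set.univ q := by
  have claim : ∀ ε : I, ∀ q : I → ℕ, Fin0 q → (∀ ξ, ¬ ξ ≤ ε → q ξ = 0) → FP Set.univ q := by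
    intro ε
    induction ε using WellFoundedLT.induction with
    | ind ε ih =>
      refine fpst I ε fun q hf hq => ?_
      by_cases h : ∀ ξ, q ξ = 0
      · exact base q h
      · obtain ⟨ε', h1, h2⟩ := largest q hf h
        exact ih ε' (not_not.1 fun h3 => h1 (hq ε' h3)) q hf h2
  by_cases h : ∀ ξ, q ξ = 0
  · exact base q h
  · obtain ⟨ε', -, h2⟩ := largest q hf h
    exact claim ε' q hf h2

theorem thm : UL.G_FPST → UL.G_RES → UL.G_FPS → UL.G_PD0 → UL.G_PD → UL.G_HFA := by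
  intro fpst res fps _ pd I _ _
  have hHF : HF I := fun D q hD hf hq =>
    fps I D hD (fun q hf _ => res I D q hD (all fpst q hf)) q hf hq
  exact ⟨hHF, fun q y k hf hy => pd I hHF q y k hf hy⟩

end UL.PkHFA
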