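import Pool.Agent.Helper15.UL.GoalsC

/-!
# Packet LCD: locally constant functions which depend only on `D`
-/

set_option autoImplicit false

noncomputable section

namespace UL.PkLCD

theorem thm : UL.G_LCD := by
  classical
  intro I D β f hf hD
  obtain ⟨A, -, hA, h⟩ := hf
  refine ⟨A ∩ D, Set.inter_subset_right, hA.mono Set.inter_subset_left, fun z => ?_⟩
  obtain ⟨F, hF, n, hn⟩ := h z
  refine ⟨F.filter (fun ξ => ξ ∈ D), ?_, n, fun z' hz' => ?_⟩
  · intro ξ hξ
    have hξ' := Finset.mem_filter.1 (Finset.mem_coe.1 hξ)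
    exact ⟨hF (Finset.mem_coe.2 hξ'.1), hξ'.2⟩
  · have h1 : f z' = f (fun ξ => if ξ ∈ D then z' ξ else z ξ) := by
      refine hD _ _ fun ξ hξ => ?_
      rw [if_pos hξ]
    rw [h1]
    refine hn _ fun ξ hξ i hi => ?_
    by_cases hξD : ξ ∈ D
    · rw [if_pos hξD]
      exact hz' ξ (Finset.mem_filter.2 ⟨hξ, hξD⟩) i hi
    · rw [if_neg hξD]

end UL.PkLCD
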